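import Pool.Agent.H71.PX.Targets

/-!
# MP_64fb07_lc, board pfc_modules: rows TR, EX, EF, CM, SB
-/

set_option autoImplicit false

namespace Pool.Agent.H19.PX

open Pool.Agent.H71.PX

theorem pf_TR (i0 : T_I0) (is : T_IS) : T_TR := by
  intro α Q m U Hh Vv hne hfin hok
  by_contra hcon
  push Not at hcon
  have key : ∀ v, ∃ n, IH m n v := by
    intro v
    induction v with
    | zero => exact i0 α Q m U Hh Vv hne hfin hok
    | succ v ih =>
      obtain ⟨n, hn⟩ := ih
      obtain ⟨w, hw⟩ := is α Q m U Hh Vv n v hok hn (hcon n v hn)
      exact ⟨_, hw⟩
  obtain ⟨n, hn⟩ := key (Nat.card α)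
  have hlt : ∀ i j, i < j → j ≤ Nat.card α → n i ≠ n j := by
    intro i j hij hj he
    have h1 := hn.ord i j hij hj
    have h2 := hn.num i (by omega)
    rw [← he] at h1
    exact (hok.uN h2 h2).2.1 h1 h1
  have hinj : Function.Injective (fun i : Fin (Nat.card α + 1) => n i) := by
    intro i j hij
    have hi := i.2
    have hj := j.2
    rcases Nat.lt_trichotomy i j with h | h | h
    · exact (hlt _ _ h (by omega) hij).elim
    · exact Fin.ext h
    · exact (hlt _ _ h (by omega) hij.symm).elim
  have h3 := Nat.card_le_card_of_injective _ hinj
  rw [Nat.card_fin] at h3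
  omega

private theorem ex_gen {α : Type} (R : ℕ → List α → Prop) (φ : QF) (π : List Bool) (a : ℕ) :
    ∀ (k : ℕ) (v : ℕ → α), (Pre R φ (List.replicate a false ++ π) k v ↔
      ∃ c : ℕ → α, (∀ i, i < k ∨ k + a ≤ i → c i = v i) ∧ Pre R φ π (k + a) c) := by
  induction a with
  | zero =>
    intro k v
    change Pre R φ π k v ↔ ∃ c : ℕ → α, (∀ i, i < k ∨ k + 0 ≤ i → c i = v i) ∧ Pre R φ π (k + 0) c
    constructor
    · intro h
      exact ⟨v, fun _ _ => rfl, h⟩
    · rintro ⟨c, h1, h2⟩
      have h3 : c = v := funext fun i => h1 i (by omega)
      rw [h3] at h2
      exact h2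
  | succ a ih =>
    intro k v
    change (∃ x, Pre R φ (List.replicate a false ++ π) (k + 1) (Function.update v k x)) ↔ _
    constructor
    · rintro ⟨x, hx⟩
      obtain ⟨c, h1, h2⟩ := (ih (k + 1) _).1 hx
      refine ⟨c, fun i hi => ?_, ?_⟩
      · rw [h1 i (by omega), Function.update_of_ne (by omega)]
      · have e : k + (a + 1) = k + 1 + a := by omega
        rw [e]
        exact h2
    · rintro ⟨c, h1, h2⟩
      refine ⟨c k, (ih (k + 1) _).2 ⟨c, fun i hi => ?_, ?_⟩⟩
      · by_cases hik : i = k
        · rw [hik, Function.update_self]
        · rw [Function.update_of_ne hik]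
          exact h1 i (by omega)
      · have e : k + 1 + a = k + (a + 1) := by omega
        rw [e]
        exact h2

theorem pf_EX : T_EX := by
  intro α R φ a π v
  rw [ex_gen R φ π a 0 v, Nat.zero_add]
  constructor
  · rintro ⟨c, h1, h2⟩
    exact ⟨c, fun i hi => h1 i (Or.inr hi), h2⟩
  · rintro ⟨c, h1, h2⟩
    exact ⟨c, fun i hi => h1 i (by omega), h2⟩

theorem pf_EF (e1 : T_E1) (e2 : T_E2) : T_EF := by
  rintro π φ ⟨a, b, h | h⟩ hv
  · subst h
    rw [List.length_append, List.length_replicate, List.length_replicate] at hv
    by_cases hf : (Spec (List.replicate a false ++ List.replicate b true) φ).Finite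
    · exact Or.inl hf
    · right
      have hinf : (Spec (List.replicate a false ++ List.replicate b true) φ).Infinite := hf
      refine (Set.finite_Iio (a + 1)).subset ?_
      intro m hm
      rw [Set.mem_Iio]
      by_contra hcon
      push Not at hcon
      apply hm
      obtain ⟨n, hn, hmn⟩ := hinf.exists_gt m
      have key : ∀ d, d ≤ n - m →
          n - d ∈ Spec (List.replicate a false ++ List.replicate b true) φ := by
        intro d
        induction d with
        | zero => intro _; exact hn
        | succ d ih =>
          intro hd
          have h1 := e1 φ a b (n - d) hv (by omega) (by omega) (ih (by omega))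
          have e : n - d - 1 = n - (d + 1) := by omega
          rw [e] at h1
          exact h1
      have h2 := key (n - m) le_rfl
      have e : n - (n - m) = m := by omega
      rw [e] at h2
      exact h2
  · subst h
    rw [List.length_append, List.length_cons, List.length_replicate, List.length_replicate] at hv
    have hv' : φ.Vars (a + 1 + b) := by
      have e : a + 1 + b = a + (b + 1) := by omega
      rw [e]; exact hv
    by_cases hn : ∃ n ∈ Spec (List.replicate a false ++ true :: List.replicate b false) φ, a < n
    · obtain ⟨n, hn, han⟩ := hn
      right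
      refine (Set.finite_Iio n).subset ?_
      intro m hm
      rw [Set.mem_Iio]
      by_contra hcon
      push Not at hcon
      apply hm
      have key : ∀ d, n + d ∈ Spec (List.replicate a false ++ true :: List.replicate b false) φ := by
        intro d
        induction d with
        | zero => exact hn
        | succ d ih => exact e2 φ a b (n + d) hv' (by omega) ih
      have h2 := key (m - n)
      have e : n + (m - n) = m := by omega
      rw [e] at h2
      exact h2
    · left
      push Not at hn
      exact (Set.finite_Iic a).subset fun m hm => hn m hm

private theorem two_sub (π : List Bool) (h1 : true ∈ π) (h2 : false ∈ π) :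
    [true, false].Sublist π ∨ [false, true].Sublist π := by
  induction π with
  | nil => cases h1
  | cons x π ih =>
    cases x with
    | true =>
      left
      rcases List.mem_cons.1 h2 with h | h
      · cases h
      · exact List.Sublist.cons_cons _ (List.singleton_sublist.2 h)
    | false =>
      right
      rcases List.mem_cons.1 h1 with h | h
      · cases h
      · exact List.Sublist.cons_cons _ (List.singleton_sublist.2 h)

theorem pf_CM : T_CM := by
  intro π
  induction π with
  | nil =>
    intro h
    exact (h ⟨0, 0, Or.inl rfl⟩).elim
  | cons x π ih =>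
    intro h
    cases x with
    | false =>
      have h1 : ¬ Easy π := by
        rintro ⟨a, b, h2 | h2⟩
        · apply h
          refine ⟨a + 1, b, Or.inl ?_⟩
          rw [h2]
          rfl
        · apply h
          refine ⟨a + 1, b, Or.inr ?_⟩
          rw [h2]
          rfl
      rcases ih h1 with h2 | h2
      · exact Or.inl (List.Sublist.cons _ h2)
      · exact Or.inr (List.Sublist.cons _ h2)
    | true =>
      by_cases ht : true ∈ π
      · by_cases hf : false ∈ π
        · rcases two_sub π ht hf with h2 | h2
          · exact Or.inl (List.Sublist.cons_cons _ h2)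
          · exact Or.inr (List.Sublist.cons_cons _ h2)
        · exfalso
          apply h
          refine ⟨0, π.length + 1, Or.inl ?_⟩
          have h3 : π = List.replicate π.length true := by
            rw [List.eq_replicate_iff]
            refine ⟨rfl, fun b hb => ?_⟩
            cases b with
            | true => rfl
            | false => exact (hf hb).elim
          rw [List.replicate_succ, ← h3]
          rfl
      · exfalso
        apply h
        refine ⟨0, π.length, Or.inr ?_⟩
        have h3 : π = List.replicate π.length false := by
          rw [List.eq_replicate_iff]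
          refine ⟨rfl, fun b hb => ?_⟩
          cases b with
          | false => rfl
          | true => exact (ht hb).elim
        rw [← h3]
        rfl

theorem pf_SB : T_SB := by
  intro α β R R' φ k v w
  induction φ with
  | rel i xs =>
    intro hv _ h2
    exact h2 i xs hv
  | eq x y =>
    intro hv h1 _
    exact h1 x y hv.1 hv.2
  | neg φ ih =>
    intro hv h1 h2
    exact not_congr (ih hv h1 h2)
  | and φ ψ ih1 ih2 =>
    intro hv h1 h2
    exact and_congr (ih1 hv.1 h1 h2) (ih2 hv.2 h1 h2)

end Pool.Agent.H19.PX
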